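import Pool.Agent.H47.SQ.Targets

/-!
# The closure (row CLO of the board `ppz_modules`)
-/

set_option autoImplicit false

namespace Pool.Agent.H14.SQP

open Finset Pool.Agent.H97.RK Pool.Agent.H41.SS Pool.Agent.H47.SR

theorem pf_CLO : Pool.Agent.H47.SR.T_CLO := by
  classical
  intro n k m F D d w hw y A W J hGd hmem hfls hJD hWc hA
  let P : Finset (Fin n) × Finset (Fin m) → Prop := fun q =>
    W ⊆ q.1 ∧ (∀ c ∈ q.2, ∀ i, (F c i).1 ∈ A ∪ q.1) ∧ (∀ c ∈ q.2, Al F y (A \ q.1) c) ∧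
      q.2.card < D ∧ q.1.card ≤ 2 * q.2.card
  obtain ⟨⟨W', J'⟩, hq, hmax⟩ := Finset.exists_max_image (univ.filter P)
    (fun q => q.2.card)
    ⟨(W, J), by
      rw [Finset.mem_filter]
      exact ⟨Finset.mem_univ _, Finset.Subset.refl _, hmem, hfls, hJD, hWc⟩⟩
  obtain ⟨b1, b2, b3, b4, b5⟩ : P (W', J') := (Finset.mem_filter.mp hq).2
  dsimp only at b1 b2 b3 b4 b5
  refine ⟨W', J', b1, b2, b3, b4, b5, ?_⟩
  intro S hSD hS
  by_contra hcon
  rw [not_le] at hcon
  obtain ⟨G, hG⟩ : ∃ G, G = VS F S \ (A ∪ W') := ⟨_, rfl⟩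
  rw [← hG] at hcon
  have hVS : ∀ c ∈ S, ∀ i, (F c i).1 ∈ VS F S := by
    intro c hc i
    unfold VS vF
    rw [Finset.mem_biUnion]
    exact ⟨c, hc, Finset.mem_image.mpr ⟨i, Finset.mem_univ _, rfl⟩⟩
  have hdisj : Disjoint J' S := by
    rw [Finset.disjoint_left]
    intro c hc hc'
    exact (hS c hc').1 hc
  have hcJ : (J' ∪ S).card = J'.card + S.card := Finset.card_union_of_disjoint hdisj
  have hcW : (W' ∪ G).card ≤ W'.card + G.card := Finset.card_union_le W' G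
  have hmem' : ∀ c ∈ J' ∪ S, ∀ i, (F c i).1 ∈ A ∪ (W' ∪ G) := by
    intro c hc i
    rw [← Finset.union_assoc, Finset.mem_union]
    rcases Finset.mem_union.mp hc with h | h
    · exact Or.inl (b2 c h i)
    · by_cases hb : (F c i).1 ∈ A ∪ W'
      · exact Or.inl hb
      · right
        rw [hG, Finset.mem_sdiff]
        exact ⟨hVS c h i, hb⟩
  have hfls' : ∀ c ∈ J' ∪ S, Al F y (A \ (W' ∪ G)) c := by
    intro c hc i hi
    rw [Finset.mem_sdiff, Finset.mem_union, not_or] at hi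
    rcases Finset.mem_union.mp hc with h | h
    · exact b3 c h i (Finset.mem_sdiff.mpr ⟨hi.1, hi.2.1⟩)
    · exact (hS c h).2 i hi.1
  have hT : Disjoint (A \ (W' ∪ G)) (W' ∪ G) := Finset.sdiff_disjoint
  have hTc : (A \ (W' ∪ G)).card ≤ A.card := Finset.card_le_card Finset.sdiff_subset
  have hsmall : (J' ∪ S).card < D := by
    refine lt_of_le_of_lt (Finset.card_le_card ?_)
      (hGd (A \ (W' ∪ G)) (W' ∪ G) hT (by omega) (by omega))
    intro c hc
    rw [Finset.mem_filter]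
    refine ⟨Finset.mem_univ _, fun i => ?_, hfls' c hc⟩
    rw [Finset.sdiff_union_self_eq_union]
    exact hmem' c hc i
  have hP : P (W' ∪ G, J' ∪ S) :=
    ⟨b1.trans Finset.subset_union_left, hmem', hfls', hsmall, by dsimp only; omega⟩
  have h := hmax (W' ∪ G, J' ∪ S) (Finset.mem_filter.mpr ⟨Finset.mem_univ _, hP⟩)
  dsimp only at h
  omega

end Pool.Agent.H14.SQP
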