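import Pool.Agent.H47.SQ.Targets

/-!
# The states of the solutions (row SOL of the board `ppz_modules`)
-/

set_option autoImplicit false

namespace Pool.Agent.H14.SQP

open Finset Pool.Agent.H97.RK Pool.Agent.H41.SS Pool.Agent.H47.SR
open Pool.Agent.H47.PL (Sat)

/-- a satisfied clause has a true literal among the known and the reserved variables -/
theorem sa_of_sat {n k m : ℕ} {F : Fml n k m} {τ : Fin n → Bool} (hs : Sat F τ)
    {B : Finset (Fin n)} {c : Fin m} (hc : ∀ i, (F c i).1 ∈ B) : Sa F τ B c := by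
  obtain ⟨i, hi⟩ := hs c
  exact ⟨i, hc i, hi⟩

theorem pf_SOL (hCLO : Pool.Agent.H47.SR.T_CLO) : Pool.Agent.H47.SR.T_SOL := by
  classical
  intro n k m F D d w hD hw hn
  refine ⟨?_, ?_, ?_, ?_⟩
  · intro τ hs hg
    obtain ⟨W', J', -, c2, c3, c4, c5, c6⟩ := hCLO n k m F D d w hw τ ∅ ∅ ∅ hg
      (fun c hc => absurd hc (Finset.notMem_empty c))
      (fun c hc => absurd hc (Finset.notMem_empty c)) (by rw [Finset.card_empty]; omega)
      (by simp) (by rw [Finset.card_empty]; omega)
    exact ⟨W', J', ⟨c2, c3, fun c hc => sa_of_sat hs (c2 c hc), c6, c4, c5⟩⟩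
  · intro τ τ' A W J h hs ht
    have hal : ∀ (B : Finset (Fin n)) (c : Fin m), B ⊆ A → (Al F τ' B c ↔ Al F τ B c) := by
      intro B c hB
      constructor
      · intro h1 i hi
        rw [← ht _ (hB hi)]
        exact h1 i hi
      · intro h1 i hi
        rw [ht _ (hB hi)]
        exact h1 i hi
    refine ⟨h.mem, fun c hc => (hal _ c Finset.sdiff_subset).2 (h.fls c hc),
      fun c hc => sa_of_sat hs (h.mem c hc), ?_, h.lt, h.crd⟩
    intro S hS hc
    exact h.inv S hS fun c hcS => ⟨(hc c hcS).1, (hal _ c (Finset.Subset.refl _)).1 (hc c hcS).2⟩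
  · intro τ A W J v h hs hg hv
    have hsub : A ∪ W ⊆ insert v A ∪ W :=
      Finset.union_subset_union (Finset.subset_insert v A) (Finset.Subset.refl _)
    obtain ⟨W', J', c1, c2, c3, c4, c5, c6⟩ := hCLO n k m F D d w hw τ (insert v A) W J hg
      (fun c hc i => hsub (h.mem c hc i))
      (fun c hc i hi => by
        rw [Finset.mem_sdiff] at hi
        refine h.fls c hc i (Finset.mem_sdiff.mpr ⟨?_, hi.2⟩)
        rcases Finset.mem_union.mp (h.mem c hc i) with h1 | h1
        · exact h1
        · exact absurd h1 hi.2)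
      h.lt h.crd hv
    exact ⟨W', J', c1, ⟨c2, c3, fun c hc => sa_of_sat hs (c2 c hc), c6, c4, c5⟩⟩
  · intro τ y A W J v h hv hy
    have hyA : ∀ u ∈ A ∪ W, y u = τ u := by
      intro u hu
      refine hy u ?_
      rintro rfl
      exact hv hu
    refine ⟨h.mem, ?_, ?_, ?_, h.lt, by rw [Nat.zero_add]; exact h.crd⟩
    · intro c hc i hi
      rw [hyA _ (Finset.mem_union_left _ (Finset.mem_sdiff.mp hi).1)]
      exact h.fls c hc i hi
    · intro c hc
      obtain ⟨i, hi, hi'⟩ := h.sat c hc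
      exact ⟨i, hi, by rw [hyA _ hi]; exact hi'⟩
    · intro S hS hc
      refine h.inv S hS fun c hcS => ⟨fun hcJ => ?_, fun i hi => ?_⟩
      · obtain ⟨i, hi, hi'⟩ := h.sat c hcJ
        exact hc c hcS i hi (by rw [hyA _ hi]; exact hi')
      · rw [← hyA _ (Finset.mem_union_left _ hi)]
        exact hc c hcS i (Finset.mem_union_left _ hi)

end Pool.Agent.H14.SQP
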