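import Pool.Agent.H47.SQ.Targets3

/-!
# Search on random k-CNFs (MP_c62aed_lc), row XML: a line of medium strength for a fixed order
(after row MLN of helper45)
-/

set_option autoImplicit false

open Finset Pool.Agent.H97.RK Pool.Agent.H97.RL Pool.Agent.H41.SS Pool.Agent.H47.SR
open Pool.Agent.H47.SQ (Derivation Refuted)

namespace Pool.Agent.H14.SQP

/-- some assignment which agrees with `y` on `A` falsifies the clause `L` and satisfies the
clauses of `J'` -/
private def G {n k m : ℕ} (F : Fml n k m) (y : Fin n → Bool) (A : Finset (Fin n)) (L : Clause n)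
    (J' : Finset (Fin m)) : Prop :=
  ∃ z : Fin n → Bool, (∀ u ∈ A, z u = y u) ∧ Falsified L z ∧ ∀ c ∈ J', Sa F z univ c

private theorem exmin {n k m : ℕ} (F : Fml n k m) (y : Fin n → Bool) (A : Finset (Fin n))
    (L : Clause n) (N : ℕ) (h : ¬ ∀ J' : Finset (Fin m), J'.card ≤ N → G F y A L J') :
    ∃ J' : Finset (Fin m), J'.card ≤ N ∧ ¬ G F y A L J' ∧
      ∀ J'' : Finset (Fin m), J''.card < J'.card → G F y A L J'' := by
  classical
  push Not at h
  obtain ⟨J0, h0, h1⟩ := h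
  have hex : ∃ q : ℕ, ∃ J' : Finset (Fin m), J'.card = q ∧ ¬ G F y A L J' := ⟨_, J0, rfl, h1⟩
  obtain ⟨J', e1, e2⟩ := Nat.find_spec hex
  refine ⟨J', ?_, e2, fun J'' hJ'' => ?_⟩
  · rw [e1]
    exact (Nat.find_le ⟨J0, rfl, h1⟩).trans h0
  · by_contra hc
    exact Nat.find_min hex (e1 ▸ hJ'') ⟨J'', rfl, hc⟩

private theorem med_core {n k m : ℕ} (F : Fml n k m) {t t₁ d u u₁ : ℕ}
    (hTRS : T_TRS) (y : Fin n → Bool) (A : Finset (Fin n))
    (hA1 : pre n (n - u₁) ⊆ A) (hA2 : pre n (n - u) ⊆ A)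
    (hG : ∀ x : Fin n → Bool, (∀ w ∈ A, x w = y w) → GdB F t t₁ d u u₁ x) (L : Clause n)
    (Js : Finset (Fin m)) (h1 : t < Js.card) (h2 : Js.card ≤ 2 * t) (h3 : ¬ G F y A L Js)
    (h4 : ∀ J'' : Finset (Fin m), J''.card < Js.card → G F y A L J'') :
    ∃ z : Fin n → Bool, (∀ u ∈ A, z u = y u) ∧ Falsified L z ∧
      n ≤ (A ∪ vs L).card + (d + 2 * t) := by
  classical
  obtain ⟨z0, hz1, hz2, -⟩ := h4 ∅ (by rw [card_empty]; omega)
  refine ⟨z0, hz1, hz2, ?_⟩
  obtain ⟨T, hT⟩ : ∃ T : Finset (Fin n), T = A ∪ vs L := ⟨_, rfl⟩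
  rw [← hT]
  have hmem : ∀ l ∈ L, l.1 ∈ T := fun l hl => by
    rw [hT]
    exact mem_union_right _ (mem_image_of_mem _ hl)
  have hGO : ∀ J' : Finset (Fin m), G F y A L J' ↔ Ok F z0 T J' := by
    intro J'
    constructor
    · rintro ⟨z, a1, a2, a3⟩
      refine ⟨z, fun u hu => ?_, a3⟩
      rw [hT] at hu
      rcases mem_union.1 hu with hu | hu
      · rw [a1 u hu, hz1 u hu]
      · obtain ⟨l, hl, rfl⟩ := mem_image.1 hu
        have b1 := a2 l hl
        have b2 := hz2 l hl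
        revert b1 b2
        cases z l.1 <;> cases z0 l.1 <;> cases l.2 <;> simp
    · rintro ⟨z, a1, a2⟩
      refine ⟨z, fun u hu => ?_, fun l hl => ?_, a2⟩
      · rw [a1 u (by rw [hT]; exact mem_union_left _ hu), hz1 u hu]
      · rw [a1 l.1 (hmem l hl)]
        exact hz2 l hl
  obtain ⟨c1, c2⟩ := hTRS n k m F z0 T Js (fun h => h3 ((hGO _).2 h))
    (fun J' hJ' => (hGO _).1 (h4 J' (card_lt_card hJ')))
  obtain ⟨U, hU⟩ : ∃ U : Finset (Fin n),
    U = (Js.biUnion fun c => univ.image fun i => (F c i).1) \ T := ⟨_, rfl⟩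
  rw [← hU] at c2
  by_contra hn
  have hAT : A ⊆ T := by
    rw [hT]
    exact subset_union_left
  have hdis : Disjoint T U := by
    rw [hU]
    exact disjoint_sdiff
  have hU0 : (U ∩ pre n (n - u₁)).card ≤ 2 * t₁ := by
    have : U ∩ pre n (n - u₁) = ∅ := by
      refine eq_empty_of_forall_notMem fun v hv => ?_
      obtain ⟨hv1, hv2⟩ := mem_inter.1 hv
      exact disjoint_left.1 hdis (hAT (hA1 hv2)) hv1
    rw [this, card_empty]
    omega
  have hx := hG z0 hz1 T U hdis (by omega) hU0 (by omega)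
    ((hA2.trans hAT).trans subset_union_left)
  have hsub : Js ⊆ univ.filter fun c => (∀ i, (F c i).1 ∈ T ∪ U) ∧ Al F z0 T c := by
    intro c hc
    refine mem_filter.2 ⟨mem_univ _, fun i => ?_, c1 c hc⟩
    by_cases hi : (F c i).1 ∈ T
    · exact mem_union_left _ hi
    · refine mem_union_right _ ?_
      rw [hU]
      exact mem_sdiff.2 ⟨mem_biUnion.2 ⟨c, hc, mem_image_of_mem _ (mem_univ i)⟩, hi⟩
  have := card_le_card hsub
  omega

theorem pf_XML (hSAF : Pool.Agent.H41.SS.T_SAF) (hTRS : Pool.Agent.H97.RK.T_TRS) : T_XML := by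
  classical
  intro n k m F t t₁ d u u₁ ht a S line ha hD y A W J hSt hA1 hA2 hG r hrS hFr hvr
  have hQr : ∀ J' : Finset (Fin m), J'.card ≤ 2 * t → G F y A (line r) J' := by
    intro J' hJ'
    obtain ⟨z, a1, a2⟩ := hSAF n k m F (2 * t) 0 y A W J hSt J' hJ'
    refine ⟨z, fun u hu => a1 u (mem_union_left _ hu), fun l hl => ?_, a2⟩
    rw [a1 l.1 (mem_union_left _ (hvr (mem_image_of_mem _ hl)))]
    exact hFr l hl
  have hex : ∃ i, ∀ J' : Finset (Fin m), J'.card ≤ 2 * t → G F y A (line i) J' := ⟨r, hQr⟩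
  obtain ⟨i, hi⟩ : ∃ i, i = Nat.find hex := ⟨_, rfl⟩
  have hQi := Nat.find_spec hex
  have hmin : ∀ a, a < i → ¬ ∀ J' : Finset (Fin m), J'.card ≤ 2 * t → G F y A (line a) J' := by
    intro a ha
    rw [hi] at ha
    exact Nat.find_min hex ha
  have hir : i ≤ r := by
    rw [hi]
    exact Nat.find_le hQr
  rw [← hi] at hQi
  have hiS : i < S := by omega
  rcases hD i hiS with ⟨C, hC1, hC2⟩ | ⟨j, hj, hsub⟩ | ⟨x, a', b, ha', hb, hsa, hsb⟩
  · obtain ⟨z, -, b2, b3⟩ := hQi C (by omega)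
    obtain ⟨l, hl, hzl⟩ := hC2 z fun c hc => by
      obtain ⟨i0, -, hi0⟩ := b3 c hc
      exact ⟨i0, hi0⟩
    exact absurd hzl (b2 l hl)
  · exfalso
    refine hmin j hj fun J' hJ' => ?_
    obtain ⟨z, b1, b2, b3⟩ := hQi J' hJ'
    exact ⟨z, b1, fun l hl => b2 l (hsub hl), b3⟩
  · obtain ⟨Ja, ja1, ja2, ja3⟩ := exmin F y A (line a') (2 * t) (hmin a' ha')
    obtain ⟨Jb, jb1, jb2, jb3⟩ := exmin F y A (line b) (2 * t) (hmin b hb)
    by_cases hab : Ja.card + Jb.card ≤ 2 * t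
    · exfalso
      obtain ⟨z, b1, b2, b3⟩ := hQi (Ja ∪ Jb) ((card_union_le _ _).trans hab)
      cases hzx : z x with
      | false =>
        refine ja2 ⟨z, b1, fun l hl => ?_, fun c hc => b3 c (mem_union_left _ hc)⟩
        rcases mem_insert.1 (hsa hl) with h | h
        · rw [h, hzx]
          exact Bool.false_ne_true
        · exact b2 l h
      | true =>
        refine jb2 ⟨z, b1, fun l hl => ?_, fun c hc => b3 c (mem_union_right _ hc)⟩
        rcases mem_insert.1 (hsb hl) with h | h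
        · rw [h, hzx]
          exact Bool.false_ne_true.symm
        · exact b2 l h
    · rcases Nat.lt_or_ge t Ja.card with h | h
      · obtain ⟨z, c1, c2, c3⟩ := med_core F hTRS y A hA1 hA2 hG (line a') Ja h ja1 ja2 ja3
        exact ⟨a', by omega, z, c1, c2, c3⟩
      · obtain ⟨z, c1, c2, c3⟩ := med_core F hTRS y A hA1 hA2 hG (line b) Jb (by omega) jb1 jb2
          jb3
        exact ⟨b, by omega, z, c1, c2, c3⟩

end Pool.Agent.H14.SQP
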