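import Pool.Agent.H47.SQ.Targets3

/-!
# Search on random k-CNFs (MP_c62aed_lc), row XUP: more variables are asked
-/

set_option autoImplicit false

open Finset Pool.Agent.H97.RK Pool.Agent.H41.SS Pool.Agent.H47.SR

namespace Pool.Agent.H14.SQP

private theorem mem_pre {n i : ℕ} {v : Fin n} : v ∈ pre n i ↔ v.1 < i := by
  simp [pre]

private theorem pre_mono {n i j : ℕ} (h : i ≤ j) : pre n i ⊆ pre n j := by
  intro v hv
  rw [mem_pre] at hv ⊢
  omega

private theorem insert_pre {n i : ℕ} (h : i < n) : insert (⟨i, h⟩ : Fin n) (pre n i) =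
    pre n (i + 1) := by
  ext v
  rw [mem_insert, mem_pre, mem_pre, Fin.ext_iff]
  change v.1 = i ∨ v.1 < i ↔ v.1 < i + 1
  omega

private theorem card_pre {n i : ℕ} : (pre n i).card ≤ i := by
  calc (pre n i).card = ((pre n i).image Fin.val).card :=
        (card_image_of_injective _ Fin.val_injective).symm
    _ ≤ (range i).card := by
        refine card_le_card fun a ha => ?_
        obtain ⟨v, hv, rfl⟩ := mem_image.1 ha
        exact mem_range.2 (mem_pre.1 hv)
    _ = i := card_range i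

private theorem step {n k m : ℕ} (F : Fml n k m) {t t₁ d u u₁ : ℕ} {x : Fin n → Bool}
    (hXAS : T_XAS) (hXCN : T_XCN) (hXL1 : T_XL1) (ht : t₁ ≤ t) (hu : u ≤ u₁) (hun : u ≤ n)
    (hd : 12 * t + d ≤ u) (hB : GdB F t t₁ d u u₁ x) (hE : GdE F t t₁ u₁ x) (i : ℕ)
    (y : Fin n → Bool) (W : Finset (Fin n)) (J : Finset (Fin m))
    (hS : Sta F (2 * t) 0 y (pre n i) W J) (hI : Inw t₁ u₁ i W J)
    (hyx : ∀ w, w ∉ W → y w = x w) (hi : i + 1 ≤ n - u) :
    ∃ (y' : Fin n → Bool) (W' : Finset (Fin n)) (J' : Finset (Fin m)),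
      W ⊆ W' ∧ Inw t₁ u₁ (i + 1) W' J' ∧ (∀ w ∈ pre n (i + 1) ∪ W, y' w = y w) ∧
      (∀ w, w ∉ W' → y' w = x w) ∧ Sta F (2 * t) 0 y' (pre n (i + 1)) W' J' := by
  classical
  have hin : i < n := by omega
  have hins := insert_pre hin
  have hins2 : insert (⟨i, hin⟩ : Fin n) (pre n i ∪ W) = pre n (i + 1) ∪ W := by
    rw [← insert_union, hins]
  rcases Nat.lt_or_ge i (n - u₁) with h | h
  · have hC := (hXCN n k m F t t₁ d u u₁ x hu).2 hE ht (i + 1) W h
    obtain ⟨y', W', J', a1, -, a3, a4, a5, a6⟩ := hXAS n k m F (2 * t) t₁ (by omega) x y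
      (pre n i) W J ⟨i, hin⟩ hS (hI.2 h.le) hyx (by
        rw [hins]
        have e : t₁ + 2 * (2 * t) = t₁ + 4 * t := by omega
        rw [e]
        exact hC)
    rw [hins] at a5
    rw [hins2] at a3
    refine ⟨y', W', J', a1, ⟨?_, fun _ => a6⟩, a3, a4, a5⟩
    have h1 := card_le_card (inter_subset_left : W' ∩ pre n (n - u₁) ⊆ W')
    have h2 := a5.crd
    omega
  · have hcard : (insert (⟨i, hin⟩ : Fin n) (pre n i) ∪ pre n (n - u)).card ≤ n - u := by
      rw [hins, union_eq_right.2 (pre_mono hi)]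
      exact card_pre
    obtain ⟨y', W', J', a1, a2, a3, a4, a5⟩ := hXL1 n k m F t t₁ d u u₁ x hu hB y (pre n i) W J
      ⟨i, hin⟩ hS hI.1 hyx (pre_mono h) (by omega)
    rw [hins] at a5
    rw [hins2] at a3
    exact ⟨y', W', J', a1, ⟨a2, fun h' => by omega⟩, a3, a4, a5⟩

theorem pf_XUP (hXAS : T_XAS) (hXCN : T_XCN) (hXL1 : T_XL1) : T_XUP := by
  classical
  intro n k m F t t₁ d u u₁ x ht hu hun hd hB hE i i' y W J hS hI hyx hii'
  induction i', hii' using Nat.le_induction with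
  | base =>
    intro hi
    exact step F hXAS hXCN hXL1 ht hu hun hd hB hE i y W J hS hI hyx hi
  | succ j hj ih =>
    intro hjn
    obtain ⟨y', W', J', a1, a2, a3, a4, a5⟩ := ih (by omega)
    obtain ⟨y'', W'', J'', b1, b2, b3, b4, b5⟩ := step F hXAS hXCN hXL1 ht hu hun hd hB hE j
      y' W' J' a5 a2 a4 hjn
    refine ⟨y'', W'', J'', a1.trans b1, b2, fun w hw => ?_, b4, b5⟩
    rw [b3 w ?_, a3 w hw]
    rcases mem_union.1 hw with h | h
    · exact mem_union_left _ (pre_mono (by omega) h)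
    · exact mem_union_right _ (a1 h)

end Pool.Agent.H14.SQP
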